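import Pool.Agent.KS6_11.LindExt.Main

/-!
# MP_c64b61_an: strong extension of bounded continuous maps from the extreme points

Bounded continuous (odd, homogeneous) maps on the Lindelöf set of extreme points of an (S,R,C)
compact set with values in a Fréchet space extend to affine Baire-one maps; the extension is
unique, takes values in the closed convex hull of the given values, is the pointwise limit of an
equibounded sequence of continuous affine maps of finite rank, and inherits the homogeneity.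
-/

open Set Filter Topology MeasureTheory

namespace Pool.Agent.Results.MP_c64b61_an.UniqueStrongExtension

open C64 Pool.Agent.KS6_11.LindExt

/-- Case (S): simplices. -/
def CaseS.{u, z} : Prop :=
  ∀ (V : Type u) [AddCommGroup V] [Module ℝ V] [TopologicalSpace V] [IsTopologicalAddGroup V]
    [ContinuousSMul ℝ V] [LocallyConvexSpace ℝ V] [T2Space V]
    (F : Type z) [AddCommGroup F] [Module ℝ F] [UniformSpace F] [IsUniformAddGroup F]
    [ContinuousSMul ℝ F] [LocallyConvexSpace ℝ F] [T2Space F] [CompleteSpace F]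
    [FirstCountableTopology F]
    (X : Set V), IsCompact X → Convex ℝ X → IsSimplex X → IsLindelof (X.extremePoints ℝ) →
    ∀ f : V → F, ContinuousOn f (X.extremePoints ℝ) →
      Bornology.IsVonNBounded ℝ (f '' X.extremePoints ℝ) →
      ∃ g : V → F, IsStrongExt ℝ X f g

/-- Case (R): dual balls of real `L₁`-preduals, odd maps. -/
def CaseR.{v, w, z} : Prop :=
  ∀ (E : Type v) [NormedAddCommGroup E] [NormedSpace ℝ E] [CompleteSpace E],
    IsL1Predual.{0, v, w} ℝ E →
  ∀ (F : Type z) [AddCommGroup F] [Module ℝ F] [UniformSpace F] [IsUniformAddGroup F]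
    [ContinuousSMul ℝ F] [LocallyConvexSpace ℝ F] [T2Space F] [CompleteSpace F]
    [FirstCountableTopology F],
    IsLindelof ((dualBall ℝ E).extremePoints ℝ) →
    ∀ f : WeakDual ℝ E → F, ContinuousOn f ((dualBall ℝ E).extremePoints ℝ) →
      Bornology.IsVonNBounded ℝ (f '' (dualBall ℝ E).extremePoints ℝ) →
      (∀ y ∈ (dualBall ℝ E).extremePoints ℝ, f (-y) = -f y) →
      ∃ g : WeakDual ℝ E → F, IsStrongExt ℝ (dualBall ℝ E) f g ∧
        ∀ x ∈ dualBall ℝ E, ∀ α : ℝ, |α| ≤ 1 → g (α • x) = α • g x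

/-- Case (C): dual balls of complex `L₁`-preduals, homogeneous maps. -/
def CaseC.{v, w, z} : Prop :=
  ∀ (E : Type v) [NormedAddCommGroup E] [NormedSpace ℂ E] [CompleteSpace E],
    IsL1Predual.{0, v, w} ℂ E →
  ∀ (F : Type z) [AddCommGroup F] [Module ℂ F] [UniformSpace F] [IsUniformAddGroup F]
    [ContinuousSMul ℂ F] [LocallyConvexSpace ℝ F] [T2Space F] [CompleteSpace F]
    [FirstCountableTopology F],
    IsLindelof ((dualBall ℂ E).extremePoints ℝ) →
    ∀ f : WeakDual ℂ E → F, ContinuousOn f ((dualBall ℂ E).extremePoints ℝ) →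
      Bornology.IsVonNBounded ℝ (f '' (dualBall ℂ E).extremePoints ℝ) →
      (∀ y ∈ (dualBall ℂ E).extremePoints ℝ, ∀ α : ℂ, ‖α‖ = 1 → f (α • y) = α • f y) →
      ∃ g : WeakDual ℂ E → F, IsStrongExt ℂ (dualBall ℂ E) f g ∧
        ∀ x ∈ dualBall ℂ E, ∀ α : ℂ, ‖α‖ ≤ 1 → g (α • x) = α • g x

/-- In all three cases every bounded continuous (odd, homogeneous) map has a strong extension. -/
theorem result.{u, v, w, z} : CaseS.{u, z} ∧ CaseR.{v, w, z} ∧ CaseC.{v, w, z} := by
  refine ⟨?_, ?_, ?_⟩
  · intro V _ _ _ _ _ _ _ F _ _ _ _ _ _ _ _ _ X hX hc hs hL f hf hb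
    exact main_S_strong hX hc hs hL f hf hb
  · intro E _ _ _ hE F _ _ _ _ _ _ _ _ _ hL f hf hb hodd
    have hhom : ∀ y ∈ (dualBall ℝ E).extremePoints ℝ, ∀ α : ℝ, ‖α‖ = 1 →
        f (α • y) = α • f y := by
      intro y hy α hα
      rcases (abs_eq (zero_le_one' ℝ)).1 ((Real.norm_eq_abs α).symm.trans hα) with h | h
      · rw [h, one_smul, one_smul]
      · rw [h, neg_one_smul, neg_one_smul]
        exact hodd y hy
    obtain ⟨g, hg⟩ := main_RC_strong (𝕜 := ℝ) hE hL f hf hb hhom
    exact ⟨g, hg, fun x hx α hα => hom_of_strong hg hhom x hx α hα⟩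
  · intro E _ _ _ hE F _ _ _ _ _ _ _ _ _ hL f hf hb hhom
    have hcs : ContinuousSMul ℝ F := by
      refine ⟨?_⟩
      have h1 : (fun p : ℝ × F => p.1 • p.2) = fun p => (p.1 : ℂ) • p.2 := by
        funext p
        exact (Complex.coe_smul p.1 p.2).symm
      rw [h1]
      exact (Complex.continuous_ofReal.comp continuous_fst).smul continuous_snd
    obtain ⟨g, hg⟩ := main_RC_strong (𝕜 := ℂ) hE hL f hf hb hhom
    exact ⟨g, hg, hom_of_strong hg hhom⟩

end Pool.Agent.Results.MP_c64b61_an.UniqueStrongExtension
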